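import Pool.Agent.Helper15.FST.St

/-! FIRST, row [CLZ]: literal labels of a zoom as literal labels of the system. -/

set_option autoImplicit false

namespace Pool.Agent.Helper10.FST

open Finset Filter Topology Matrix Pool.Agent.Helper69.RK Pool.Agent.Helper31.EC Pool.Agent.Helper31.EC.Sp
open Pool.Agent.Helper40.EL Pool.Agent.Helper89.LX Pool.Agent.Helper84.MT
open Pool.Agent.Helper29.MX Pool.Agent.Helper15.FST

noncomputable section

theorem comp_ofZ {S : Sp} (W : Rsl S) (w : ℝ) (hu : 0 < w) (V : Rsl S) :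
    (Lab.ofZ W).comp w hu (Lab.ofZ (S := (Lab.ofZ W).ovr w hu) V) = Lab.ofZ fun k => W k ⊓ V k := by
  rfl

theorem row_clz : ROW_CLZ := by
  intro S N g r κ s c a w U Z V e c'
  have h1 : Z.cl (Lab.ofZ (S := (Lab.ofZ Z.W).ovr w Z.hu) V) = Lab.ofZ fun k => Z.W k ⊓ V k := comp_ofZ Z.W w Z.hu V
  rw [h1]
  exact ⟨rfl, id⟩

end

end Pool.Agent.Helper10.FST
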