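import Pool.Agent.Helper15.FST.Cn

/-! Case (C) of FIRST, the real part: the numbers of the zooms at a jump. -/

set_option autoImplicit false

namespace Pool.Agent.Helper10.FST

open Finset Filter Topology Pool.Agent.Helper15.FST

theorem gam_mono {N : ℕ} (E : Fin N → ℝ) {b b' : ℝ} (h : b ≤ b') : gam E b ≤ gam E b' :=
  Finset.sum_le_sum fun _ _ => min_le_min le_rfl h

theorem gam_strict {N : ℕ} (E : Fin N → ℝ) {b b' : ℝ} (h : b < b') (i : Fin N) (hi : b < E i) : gam E b < gam E b' := by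
  refine Finset.sum_lt_sum (fun _ _ => min_le_min le_rfl h.le) ⟨i, Finset.mem_univ _, ?_⟩
  rw [min_eq_right hi.le]
  exact lt_min hi h

theorem gam_tendsto {N : ℕ} {α : Type*} {l : Filter α} {F : α → Fin N → ℝ} {F' : Fin N → ℝ}
    (h : ∀ i, Tendsto (fun y => F y i) l (𝓝 (F' i))) (e : ℝ) : Tendsto (fun y => gam (F y) e) l (𝓝 (gam F' e)) :=
  tendsto_finsetSum _ fun i _ => (h i).min tendsto_const_nhds

/-- the part of `min x` above `a` -/
theorem min_part {x a e : ℝ} (h : a ≤ e) : min (max (x - a) 0) (e - a) = min x e - min x a := by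
  rcases le_total x a with h1 | h1
  · rw [max_eq_right (by linarith), min_eq_left (by linarith), min_eq_left (h1.trans h), min_eq_left h1, sub_self]
  · rw [max_eq_left (by linarith), min_eq_right h1]
    rcases le_total x e with h2 | h2
    · rw [min_eq_left (by linarith), min_eq_left h2]
    · rw [min_eq_right (by linarith), min_eq_right h2]

/-- levels `r` at or immediately above `θ` -/
theorem exists_r {L : Set ℝ} {u : ℝ → ℝ → ℝ} (rat : ∀ e : ℚ, (0 : ℝ) < e → (e : ℝ) ≤ 1 → (e : ℝ) ∈ L) {c θ : ℝ}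
    (h0 : 0 < θ) (h1 : θ ≤ 1) (ht : ∀ e : ℚ, θ < e → (e : ℝ) ≤ 1 → u e c = u 1 c) {η : ℝ} (hη : 0 < η) :
    ∃ r ∈ L, θ ≤ r ∧ r ≤ 1 ∧ r < θ + η ∧ u r c = u 1 c := by
  rcases h1.eq_or_lt with h2 | h2
  · refine ⟨1, ?_, h1, le_rfl, by linarith, rfl⟩
    have h3 := rat 1 (by norm_num) (by norm_num)
    simpa using h3
  · obtain ⟨q, hq1, hq2⟩ := exists_rat_btwn (lt_min h2 (by linarith : θ < θ + η))
    have h3 := hq2.trans_le (min_le_left _ _)
    exact ⟨q, rat q (by linarith) h3.le, hq1.le, h3.le, hq2.trans_le (min_le_right _ _), ht q hq1 h3.le⟩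

/-- the top exponent is below a deficient level -/
theorem top_le {N v : ℕ} {L : Set ℝ} {u h : ℝ → ℝ → ℝ} (hN : 1 ≤ N) (H : Nums N v L u h) {y r ε : ℝ} (hy : 0 < y)
    (hyr : y < r) (hr : r ∈ L) (hr1 : r ≤ 1) (hε : 0 < ε) {F : Fin N → ℝ}
    (hF : ∀ e ∈ L, y ≤ e → e ≤ 1 → u e y = gam F e) (hd : ε ≤ N * r - u r y - h r y) (i : Fin N) :
    F i ≤ max y (r - ε / N) := by
  have hNr : (0 : ℝ) < N := by exact_mod_cast hN
  by_contra hc
  push Not at hc
  have hε2 : r - ε / N < r := sub_lt_self _ (div_pos hε hNr)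
  obtain ⟨e', h1, h2⟩ := exists_rat_btwn (lt_min hc (max_lt hyr hε2))
  have hy' := (le_max_left _ _).trans_lt h1
  have h3 := (le_max_right _ _).trans_lt h1
  have h4 := h2.trans_le (min_le_left _ _)
  have h5 := h2.trans_le (min_le_right _ _)
  have e0 : (0 : ℝ) < e' := hy.trans hy'
  have e1 : (e' : ℝ) ≤ 1 := by linarith
  have hdef : N * (e' : ℝ) - u e' y - h e' y ≤ 0 := by
    by_contra hc2
    push Not at hc2
    obtain ⟨e, g1, g2⟩ := exists_rat_btwn (max_lt hy' (sub_lt_self (e' : ℝ) hc2))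
    have g3 := (le_max_left _ _).trans_lt g1
    have g4 := (le_max_right _ _).trans_lt g1
    have eL := H.rat e (hy.trans g3) (g2.le.trans e1)
    have g5 : u e y < u e' y := by
      rw [hF e eL g3.le (g2.le.trans e1), hF e' (H.rat e' e0 e1) hy'.le e1]
      exact gam_strict F g2 i (g2.trans h4)
    have g6 := H.sat e eL e' (H.rat e' e0 e1) y (hy.trans g3) g2 e1 hy.le g3.le g5
    linarith
  obtain ⟨g1, g2⟩ := H.lev e' (H.rat e' e0 e1) r hr y e0 h5.le hr1 hy.le hy'.le
  have g3 : ε ≤ N * (r - e') := by nlinarith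
  have g4 : ε / N ≤ r - e' := by
    rw [div_le_iff₀ hNr]
    linarith
  linarith

theorem cnum : CNUM := by
  intro N v L u h hN H c a θ ε hc hca haθ hθ haL hε h1 h2 h3 h4 h5
  have hNr : (0 : ℝ) < N := by exact_mod_cast hN
  have hc1 : c < 1 := by linarith
  have ha0 : 0 < a := by linarith
  have h1L : (1 : ℝ) ∈ L := by
    have h6 := H.rat 1 (by norm_num) (by norm_num)
    simpa using h6
  set U : Ultrafilter ℝ := Ultrafilter.of (𝓝[<] c) with hU
  have hUle : (U : Filter ℝ) ≤ 𝓝[<] c := Ultrafilter.of_le _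
  have hcnt1 := H.cnt 1 h1L c one_pos le_rfl hc.le hc1.le
  -- the exponents
  have hF : ∀ᶠ y in 𝓝[<] c, ∃ F : Fin N → ℝ, (∀ i, y ≤ F i ∧ F i < 1) ∧
      ∀ e ∈ L, y ≤ e → e ≤ 1 → u e y = gam F e := by
    have hev : ∀ᶠ y in 𝓝[<] c, y ∈ Set.Ioo (c / 2) c := Ioo_mem_nhdsLT (by linarith)
    filter_upwards [h3, hev] with y g1 g2
    apply H.expo y (by linarith [g2.1]) (by linarith [g2.2])
    linarith
  obtain ⟨F, hF⟩ := hF.choice
  have hFU := hUle hF
  -- the limit
  obtain ⟨F', hF'1, hF'2⟩ := (isCompact_Icc (a := (0 : Fin N → ℝ)) (b := 1)).ultrafilter_le_nhds (U.map F) (by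
    rw [le_principal_iff]
    show ∀ᶠ y in (U : Filter ℝ), F y ∈ Set.Icc (0 : Fin N → ℝ) 1
    have hev : ∀ᶠ y in 𝓝[<] c, y ∈ Set.Ioo (c / 2) c := Ioo_mem_nhdsLT (by linarith)
    filter_upwards [hFU, hUle hev] with y g1 g2
    exact ⟨fun i => by
      have := (g1.1 i).1
      have := g2.1
      show (0 : ℝ) ≤ F y i
      linarith, fun i => (g1.1 i).2.le⟩)
  have hlim : Tendsto F U (𝓝 F') := hF'2
  rw [tendsto_pi_nhds] at hlim
  have hF0 : ∀ i, 0 ≤ F' i := fun i => hF'1.1 i
  have hF1 : ∀ i, F' i ≤ 1 := fun i => hF'1.2 i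
  -- deficits at the levels `r`
  have hdr : ∀ r ∈ L, θ ≤ r → r ≤ 1 → u r c = u 1 c → ∀ᶠ y in 𝓝[<] c, ε ≤ N * r - u r y - h r y := by
    intro r hr hθr hr1 hur
    have hev : ∀ᶠ y in 𝓝[<] c, y ∈ Set.Ioo (c / 2) c := Ioo_mem_nhdsLT (by linarith)
    filter_upwards [h3, hev] with y g1 g2
    have hy0 : 0 < y := by linarith [g2.1]
    have hr0 : 0 < r := by linarith
    have g3 := H.inc r hr 1 h1L y c hr0 hr1 le_rfl hy0.le g2.2.le hc1.le
    have g4 := H.cnt r hr c hr0 hr1 hc.le (by linarith)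
    have g5 := (H.lev r hr 1 h1L y hr0 hr1 le_rfl hy0.le (by linarith [g2.2])).1
    linarith
  -- the top exponent of the limit
  have htop : ∀ i, F' i < θ := by
    intro i
    obtain ⟨r, hr, hθr, hr1, hrη, hur⟩ := exists_r (u := u) (c := c) H.rat (by linarith : 0 < θ) hθ h2
      (div_pos hε (mul_pos two_pos hNr) : 0 < ε / (2 * N))
    have hev : ∀ᶠ y in 𝓝[<] c, y ∈ Set.Ioo (c / 2) c := Ioo_mem_nhdsLT (by linarith)
    have g1 : ∀ᶠ y in (U : Filter ℝ), F y i ≤ max c (r - ε / N) := by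
      filter_upwards [hFU, hUle hev, hUle (hdr r hr hθr hr1 hur)] with y g1 g2 g3
      exact (top_le hN H (by linarith [g2.1]) (by linarith [g2.2]) hr hr1 hε g1.2 g3 i).trans
        (max_le_max g2.2.le le_rfl)
    have g2 := le_of_tendsto (hlim i) g1
    refine g2.trans_lt (max_lt (by linarith) ?_)
    have e1 : ε / N = 2 * (ε / (2 * N)) := by
      field_simp
    have e2 : 0 < ε / (2 * N) := div_pos hε (mul_pos two_pos hNr)
    linarith
  have haθ' : 0 < θ - a := by linarith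
  refine ⟨fun i => max (F' i - a) 0 / (θ - a), fun i => ⟨div_nonneg (le_max_right _ _) haθ'.le, ?_⟩, ?_, ?_⟩
  · rw [div_lt_one haθ']
    exact max_lt (by linarith [htop i]) haθ'
  · -- the total exponent
    have key : ∀ e : ℚ, a < e → (e : ℝ) ≤ 1 → gam F' e - gam F' a < (N - v) * (e - a) := by
      intro e he he1
      obtain ⟨η, hη, g1⟩ := h5 e he he1
      have hev : ∀ᶠ y in 𝓝[<] c, y ∈ Set.Ioo (c / 2) c := Ioo_mem_nhdsLT (by linarith)
      have g2 : ∀ᶠ y in (U : Filter ℝ), gam (F y) e - gam (F y) a ≤ (N - v) * (e - a) - η := by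
        filter_upwards [hFU, hUle hev, hUle g1] with y g2 g3 g4
        rw [← g2.2 e (H.rat e (by linarith) he1) (by linarith [g3.2]) he1, ← g2.2 a haL (by linarith [g3.2]) (by linarith)]
        exact g4
      have g3 := le_of_tendsto ((gam_tendsto hlim e).sub (gam_tendsto hlim a)) g2
      linarith
    intro b hb hb1
    obtain ⟨e, he1, he2⟩ := exists_rat_btwn (show a < a + b * (θ - a) by nlinarith)
    have he3 : (e : ℝ) ≤ 1 := by nlinarith
    have g1 := key e he1 he3
    set b1 := ((e : ℝ) - a) / (θ - a) with hb1d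
    have hb1p : 0 < b1 := div_pos (by linarith) haθ'
    have hb1b : b1 ≤ b := by
      rw [hb1d, div_le_iff₀ haθ']
      linarith
    have g2 : gam (fun i => max (F' i - a) 0 / (θ - a)) b1 * (θ - a) = gam F' e - gam F' a := by
      unfold gam
      rw [Finset.sum_mul, ← Finset.sum_sub_distrib]
      refine Finset.sum_congr rfl fun i _ => ?_
      rw [← min_part he1.le, min_mul_of_nonneg _ _ haθ'.le, div_mul_cancel₀ _ haθ'.ne', hb1d,
        div_mul_cancel₀ _ haθ'.ne']
    have g3 : gam (fun i => max (F' i - a) 0 / (θ - a)) b ≤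
        b / b1 * gam (fun i => max (F' i - a) 0 / (θ - a)) b1 := by
      unfold gam
      rw [Finset.mul_sum]
      refine Finset.sum_le_sum fun i _ => ?_
      have hx : 0 ≤ max (F' i - a) 0 / (θ - a) := div_nonneg (le_max_right _ _) haθ'.le
      have hq : 1 ≤ b / b1 := (one_le_div hb1p).2 hb1b
      rw [mul_min_of_nonneg _ _ (by linarith : 0 ≤ b / b1), div_mul_cancel₀ _ hb1p.ne']
      refine min_le_min ?_ le_rfl
      nlinarith
    have g4 : gam (fun i => max (F' i - a) 0 / (θ - a)) b1 < (N - v) * b1 := by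
      have e1 : (N - v) * b1 * (θ - a) = (N - v) * (e - a) := by
        rw [hb1d, mul_assoc, div_mul_cancel₀ _ haθ'.ne']
      rw [← e1, ← g2] at g1
      exact lt_of_mul_lt_mul_right g1 haθ'.le
    have hq : 0 < b / b1 := div_pos hb hb1p
    have g5 := mul_lt_mul_of_pos_left g4 hq
    have e2 : b / b1 * ((N - v) * b1) = (N - v) * b := by
      field_simp
    linarith
  · intro δ hδ
    -- the level `r`
    set η := min (δ / 2) (δ * (θ - a) ^ 2 / (2 * N)) with hη
    have hη0 : 0 < η := lt_min (by linarith) (by positivity)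
    obtain ⟨r, hr, hθr, hr1, hrη, hur⟩ := exists_r (u := u) (c := c) H.rat (by linarith : 0 < θ) hθ h2 hη0
    have hrδ : r - θ < δ / 2 := by
      have := min_le_left (δ / 2) (δ * (θ - a) ^ 2 / (2 * N))
      linarith
    have hrδ2 : r - θ ≤ δ * (θ - a) ^ 2 / (2 * N) := by
      have := min_le_right (δ / 2) (δ * (θ - a) ^ 2 / (2 * N))
      linarith
    obtain ⟨p, hp1, hp2⟩ := exists_rat_btwn (show max a (θ - δ / 2) < θ from max_lt haθ (by linarith))
    have hp3 := (le_max_left _ _).trans_lt hp1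
    have hp4 := (le_max_right _ _).trans_lt hp1
    have hra : 0 < r - a := by linarith
    -- the exponents
    have hsum : Tendsto (fun y => ∑ i, |max (F y i - a) 0 / (r - a) - max (F' i - a) 0 / (θ - a)|) U
        (𝓝 (∑ i, |max (F' i - a) 0 / (r - a) - max (F' i - a) 0 / (θ - a)|)) := by
      refine tendsto_finsetSum _ fun i _ => Tendsto.abs (Tendsto.sub ?_ tendsto_const_nhds)
      exact (((hlim i).sub tendsto_const_nhds).max tendsto_const_nhds).div_const _
    have hsum2 : ∑ i, |max (F' i - a) 0 / (r - a) - max (F' i - a) 0 / (θ - a)| < δ := by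
      have g1 : ∀ i : Fin N, |max (F' i - a) 0 / (r - a) - max (F' i - a) 0 / (θ - a)| ≤ δ / (2 * N) := by
        intro i
        have hx0 : 0 ≤ max (F' i - a) 0 := le_max_right _ _
        have hx1 : max (F' i - a) 0 ≤ 1 := max_le (by linarith [hF1 i]) zero_le_one
        have e1 : max (F' i - a) 0 / (r - a) - max (F' i - a) 0 / (θ - a) =
            -(max (F' i - a) 0 * (r - θ) / ((r - a) * (θ - a))) := by
          field_simp
          ring
        rw [e1, abs_neg, abs_of_nonneg (by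
          apply div_nonneg (mul_nonneg hx0 (by linarith)) (mul_nonneg hra.le haθ'.le))]
        rw [div_le_iff₀ (mul_pos hra haθ')]
        have g2 : max (F' i - a) 0 * (r - θ) ≤ 1 * (r - θ) := mul_le_mul_of_nonneg_right hx1 (by linarith)
        have g3 : (θ - a) ^ 2 ≤ (r - a) * (θ - a) := by nlinarith
        have g4 : δ * (θ - a) ^ 2 / (2 * N) = δ / (2 * N) * (θ - a) ^ 2 := by ring
        have g5 : δ / (2 * N) * (θ - a) ^ 2 ≤ δ / (2 * N) * ((r - a) * (θ - a)) :=
          mul_le_mul_of_nonneg_left g3 (by positivity)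
        linarith
      have g2 := Finset.sum_le_sum fun i (_ : i ∈ (Finset.univ : Finset (Fin N))) => g1 i
      refine g2.trans_lt ?_
      rw [Finset.sum_const, Finset.card_univ, Fintype.card_fin, nsmul_eq_mul]
      have e1 : (N : ℝ) * (δ / (2 * N)) = δ / 2 := by
        field_simp
      linarith
    have hev : ∀ᶠ y in 𝓝[<] c, y ∈ Set.Ioo (max (c / 2) (c - δ)) c :=
      Ioo_mem_nhdsLT (max_lt (by linarith) (by linarith))
    have hall : ∀ᶠ y in (U : Filter ℝ), ∃ (y r p : ℝ) (F : Fin N → ℝ), c / 2 ≤ y ∧ y < c ∧ c - y ≤ δ ∧ r ∈ L ∧ p ∈ L ∧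
        θ ≤ r ∧ r ≤ 1 ∧ c ≤ p ∧ p < r ∧ r - p ≤ δ ∧ u p c < u r c ∧ u r c = u 1 c ∧
        (∀ e ∈ L, y ≤ e → e ≤ 1 → u e y = gam F e) ∧
        (∑ i, |max (F i - a) 0 / (r - a) - max (F' i - a) 0 / (θ - a)| ≤ δ) ∧
          ε ≤ N * r - u r y - h r y ∧ N * a - u a y ≤ v * (a - y) + δ := by
      filter_upwards [hFU, hUle hev, hUle (hdr r hr hθr hr1 hur), hUle (h4 δ hδ),
        hsum.eventually (gt_mem_nhds hsum2)] with y g1 g2 g3 g4 g5
      have hy1 := (le_max_left _ _).trans_lt g2.1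
      have hy2 := (le_max_right _ _).trans_lt g2.1
      refine ⟨y, r, p, F y, hy1.le, g2.2, by linarith, hr, H.rat p (by linarith) (by linarith), hθr, hr1, by linarith,
        by linarith, by linarith, ?_, hur, g1.2, g5.le, g3, g4⟩
      rw [hur]
      exact h1 p (by linarith) hp2
    obtain ⟨_, hy⟩ := hall.exists
    exact hy

end Pool.Agent.Helper10.FST
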