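import Pool.Agent.Helper15.FST.St
import Pool.Agent.Helper3.ENT.Mem
import Pool.Agent.Helper8.CPY.Ent
import Pool.Agent.Helper8.CPY.AllE
import Pool.Agent.Helper81.CPY.Evn
import Pool.Agent.Helper38.NSL.Near
import Pool.Agent.Helper52.MW.Def
import Pool.Agent.Helper26.OUT.Wl

/-! NSLJ: the input `JT` and full labels `Ful` under rounding of the point, on events of extensions, on extensions. -/

set_option autoImplicit false

namespace Pool.Agent.Helper10.FST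

open Finset Filter Topology Matrix Pool.Agent.Helper69.RK Pool.Agent.Helper31.EC Pool.Agent.Helper31.EC.Sp
open Pool.Agent.Helper40.EL Pool.Agent.Helper89.LX Pool.Agent.Helper84.MT
open Pool.Agent.Helper49.MD Pool.Agent.Helper36.AM
open Pool.Agent.Helper3.LF (Mon phi nn Cu Cm nn_one Cu_one Cm_one phi_comp phi_nonneg)
open Pool.Agent.Helper3.KL (Cls)
open Pool.Agent.Helper38.NSL
open Pool.Agent.Helper29.MX Pool.Agent.Helper15.FST

noncomputable section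

variable {S T : Sp} {M N D : ℕ} {E : ℕ → ℕ} {ι κ : Type}

/-! ### close points -/

/-- close forms at a point and at a point of the same cell -/
theorem hasE_near {F : FSp} {Q Q' : F.Ω → Fin M → ℝ} {W : κ → Setoid F.Ω} {e γ p K η : ℝ} (hK0 : 0 ≤ K)
    (hQ : ∀ ω, F.μ ω ≠ 0 → ∀ i, |Q' ω i - Q ω i| ≤ K * dlF F 1)
    (h1 : nn M D * (Cu D * Cm M D * (K + 1) ^ D) ^ 2 ≤ 2 ^ (η * F.n))
    (h2 : cQ M D ^ M * (K + 1) ^ (2 * D * M) ≤ 2 ^ (η * F.n)) (hη : 0 ≤ η)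
    (h : HasE F M D Q W e γ p) : HasE F M D Q' W (e + η) (γ - η) p := by
  obtain ⟨A, J, a1, a2, a3, a4⟩ := h
  have hn := F.pos
  have hd : 0 < dlF F 1 := dlF_pos' F 1
  have hpow : (2 : ℝ) ^ (η * F.n) * 2 ^ (e * F.n) = 2 ^ ((e + η) * F.n) := by
    rw [← Real.rpow_add (by norm_num)]
    congr 1; ring
  refine ⟨A, J, a1, a2, a3, fun ω hω hA => ?_⟩
  obtain ⟨b1, b2⟩ := a4 ω hω hA
  refine ⟨fun i j => Nr.mono (mul_le_mul_of_nonneg_right (by linarith) hn.le) (a3 i ω hω).psd (a3 j ω hω).psd (b1 i j),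
    fun i => ⟨?_, ?_⟩⟩
  · have h6 : phi (dlF F 1) (J i ω) (Q' ω) ≤ nn M D * (Cu D * Cm M D * (K + 1) ^ D) ^ 2 * phi (dlF F 1) (J i ω) (Q ω) :=
      phi_comp (J i ω) (a3 i ω hω).pdM (dlF F 1) (dlF F 1) (K + 1) hd hd.le (by linarith) _ _
        (fun j => by
          rw [add_mul, one_mul]
          exact add_le_add (hQ ω hω j) le_rfl)
    have h8 : 0 ≤ phi (dlF F 1) (J i ω) (Q ω) := phi_nonneg _ (fun y => (a3 i ω hω).pdM.nonneg y) _
    rw [← hpow]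
    exact h6.trans (mul_le_mul h1 (b2 i).1 h8 (by positivity))
  · have h6 : GQ (dlF F 1) (J i ω) (Q ω) ≤ cQ M D ^ M * (K + 1) ^ (2 * D * M) * GQ (dlF F 1) (J i ω) (Q' ω) :=
      GQ_comp (J i ω) (a3 i ω hω).pdM (dlF F 1) (dlF F 1) (K + 1) hd hd.le (by linarith) _ _
        (fun j => by
          rw [add_mul, one_mul, abs_sub_comm]
          exact add_le_add (hQ ω hω j) le_rfl)
    have h3 := one_le_GQ (dlF F 1) (a3 i ω hω).1 (a3 i ω hω).psd.2 (Q ω)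
    have h4 := one_le_GQ (dlF F 1) (a3 i ω hω).1 (a3 i ω hω).psd.2 (Q' ω)
    have h7 : GQ (dlF F 1) (J i ω) (Q ω) ≤ 2 ^ (η * F.n) * GQ (dlF F 1) (J i ω) (Q' ω) :=
      h6.trans (mul_le_mul_of_nonneg_right h2 (by linarith))
    have h5 := Real.logb_le_logb_of_le (b := 2) (by norm_num) (by linarith) h7
    rw [Real.logb_mul (by positivity) (by linarith), Real.logb_rpow (by norm_num) (by norm_num)] at h5
    have h9 := (b2 i).2
    unfold gxF at h9 ⊢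
    have hn2 : 0 < 2 * F.n := by linarith
    rw [le_div_iff₀ hn2] at h9 ⊢
    have h8 := mul_nonneg hη hn.le
    nlinarith

/-- TRANSVERSALITY DOES NOT DEPEND ON THE POINT OF THE CELL -/
theorem nhet_near {Q Q' : S.VV M} (hQ : Cls Q Q') {W : κ → ∀ k, Setoid (S.F k).Ω} {K g₀ : ℝ} (hK : 0 ≤ K)
    (h : NHEt Q D W K g₀) : NHEt Q' D W K g₀ := by
  obtain ⟨L, hL, h1⟩ := hQ
  intro e γ p he hγ hp
  obtain ⟨η, hη, hη2⟩ : ∃ η : ℝ, 0 < η ∧ K * (e + η) + g₀ < γ - η := by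
    refine ⟨(γ - (K * e + g₀)) / (2 * (K + 1)), by apply div_pos <;> linarith, ?_⟩
    have e1 : (γ - (K * e + g₀)) / (2 * (K + 1)) * (K + 1) = (γ - (K * e + g₀)) / 2 := by
      field_simp
    nlinarith
  have hs : S.Sub (fun k => nn M D * (Cu D * Cm M D * (L k + 1) ^ D) ^ 2) := by
    have h0 : (0 : ℝ) ≤ nn M D := zero_le_one.trans (nn_one M D)
    have h3 : (0 : ℝ) ≤ Cu D * Cm M D := mul_nonneg (zero_le_one.trans (Cu_one D)) (zero_le_one.trans (Cm_one M D))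
    exact (S.Sub_const h0).mul (Sub_pow' ((S.Sub_const h3).mul
      (Sub_pow' (hL.add (S.Sub_const zero_le_one)) _)) _)
  have hs2 : S.Sub (fun k => cQ M D ^ M * (L k + 1) ^ (2 * D * M)) := by
    have h0 : (0 : ℝ) ≤ cQ M D ^ M := pow_nonneg (zero_le_one.trans (cQ_one M D)) _
    exact (S.Sub_const h0).mul (Sub_pow' (hL.add (S.Sub_const zero_le_one)) _)
  filter_upwards [h (e + η) (γ - η) p (by linarith) hη2 hp, h1, hL.1, hs.eventually_le hη, hs2.eventually_le hη]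
    with k a b c d d' hc
  refine a (hasE_near (Q := Q'.v k) c (fun ω hω i => ?_) (by linarith) (by linarith) hη.le hc)
  rw [abs_sub_comm]
  exact b ω hω i

theorem nhb_rd {s : MSys S N E ι} {γ b : ℝ} (h : NHb s γ b) : NHb (rd s) γ b := by
  intro h0 h1 D
  have h2 := h h0 h1 D
  have h3 : Cls (s.trn b h0 h1).Q ((rd s).trn b h0 h1).Q := by
    refine ⟨fun _ => 1, Sp.Sub_const _ zero_le_one, Eventually.of_forall fun k ω _ i => ?_⟩
    rw [one_mul]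
    have h4 := Pool.Agent.Helper89.RAK.rnd_close s.Q k ω i
    have h5 : S.dl 1 k ≤ (S.chg S.tr b h0).dl 1 k := by
      rw [Sp.chg_dl, mul_one]
      exact S.dl_anti h1 k
    exact h4.trans h5
  exact nhet_near h3 (C3_nonneg N D) h2

/-! ### rounding -/

theorem H_dg_rd (s : MSys S N E ι) (p : Pj T S) (A : ∀ k, (T.F k).Ω → Prop) (hA : 0 < ul (T.pr A)) {b : ℝ} (hb : b ≤ 1) :
    H (((rd s).im p A hA).Q.dg b) = H ((s.im p A hA).Q.dg b) := by
  have h1 : ((rd s).im p A hA).Q = Pool.Agent.Helper89.RAK.rnd (s.im p A hA).Q := rfl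
  rw [h1, ← dg_near (cls_rnd (s.im p A hA).Q) b hb]

/-- THE INPUT OF [NSLJ] FOR THE ROUNDED POINT -/
theorem jt_rd {C : MCl N} {v g r e0 : ℕ} {F : Fin N → ℝ} {d : ℝ} {s : MSys S N (lin g) (Fin r)}
    (hpnt : ∀ S g r s s', C S g r s → Nrq s s' → C S g r s') (h : JT C v g r e0 F d S s) :
    JT C v g r e0 F d S (rd s) where
  cl := hpnt _ _ _ _ _ h.cl (Pool.Agent.Helper3.ENT.nrq_rd s)
  inv := Pool.Agent.Helper3.ENT.inv_rd h.inv
  dim := h.dim
  pol := h.pol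
  dfb := fun T p A hA b h0 h1 => by
    rw [H_dg_rd s p A hA h1]
    exact h.dfb T p A hA b h0 h1
  dfc := fun T p A hA => by
    rw [H_dg_rd s p A hA le_rfl]
    exact h.dfc T p A hA
  nh := fun b h0 h1 => nhb_rd (h.nh b h0 h1)

/-- FULL LABELS FOR THE ROUNDED POINT -/
theorem ful_rd [Finite ι] {s : MSys S N E ι} {c ε : ℝ} {V : Rsl S} (h : Ful s D c ε V) : Ful (rd s) D c ε V := by
  obtain ⟨x, h1, h2, h3⟩ := h
  refine ⟨x, h1, Pool.Agent.Helper89.RND.kad_rd.mpr h2, ?_⟩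
  have h4 : (rd s).Q.dg 1 = s.Q.dg 1 := Pool.Agent.Helper89.RND.dg_rnd s.Q
  rw [Pool.Agent.Helper89.RND.kad_vol h2, h4]
  exact h3

theorem ful_of_rd [Finite ι] {s : MSys S N E ι} {c ε : ℝ} {V : Rsl S} (h : Ful (rd s) D c ε V) : Ful s D c ε V := by
  obtain ⟨x, h1, h2, h3⟩ := h
  have h5 := Pool.Agent.Helper89.RND.kad_rd.mp h2
  refine ⟨x, h1, h5, ?_⟩
  have h4 : (rd s).Q.dg 1 = s.Q.dg 1 := Pool.Agent.Helper89.RND.dg_rnd s.Q
  rw [Pool.Agent.Helper89.RND.kad_vol h5, h4] at h3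
  exact h3

/-! ### events of extensions -/

theorem nhb_im {s : MSys S N E ι} {γ b : ℝ} (h : NHb s γ b) (p : Pj T S) (A : ∀ k, (T.F k).Ω → Prop)
    (hA : 0 < ul (T.pr A)) : NHb (s.im p A hA) γ b := by
  intro h0 h1 D
  exact NHEt.im (h h0 h1 D) (Pool.Agent.Helper81.CPY.pjb p S.tr b h0) A hA

/-- THE INPUT OF [NSLJ] ON EVENTS OF EXTENSIONS -/
theorem jt_im {C : MCl N} {v g r e0 : ℕ} {F : Fin N → ℝ} {d : ℝ} {s : MSys S N (lin g) (Fin r)}
    (him : ∀ S g r s, C S g r s → ∀ (T : Sp) (p : Pj T S) (E : ∀ k, (T.F k).Ω → Prop) (hE : 0 < ul (T.pr E)),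
      C (Sp.im p E) g r (s.im p E hE)) (h : JT C v g r e0 F d S s) (p : Pj T S) (A : ∀ k, (T.F k).Ω → Prop)
    (hA : 0 < ul (T.pr A)) : JT C v g r e0 F d (Sp.im p A) (s.im p A hA) where
  cl := him _ _ _ _ h.cl T p A hA
  inv := Pool.Agent.Helper52.MW.Inv_im h.inv p A hA
  dim := h.dim
  pol := Pool.Agent.Helper26.OUT.WDs.im (fun _ => Nat.cast_nonneg g) h.pol p A hA
  dfb := by
    have h1 : Pool.Agent.Helper8.CPY.AlE (fun S (t : MSys S N (lin g) (Fin r)) => ∀ b : ℝ, 0 ≤ b → b ≤ 1 →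
      H (t.Q.dg b) ≤ N * b - Pool.Agent.Helper15.FST.gam F b) S s := h.dfb
    exact Pool.Agent.Helper8.CPY.AlE.im h1 p A hA
  dfc := by
    have h1 : Pool.Agent.Helper8.CPY.AlE (fun S (t : MSys S N (lin g) (Fin r)) =>
      H (t.Q.dg 1) ≤ N - Pool.Agent.Helper15.FST.gam F 1 - d) S s := h.dfc
    exact Pool.Agent.Helper8.CPY.AlE.im h1 p A hA
  nh := fun b h0 h1 => nhb_im (h.nh b h0 h1) p A hA

/-! ### extensions -/

theorem nhb_pull [Nonempty ι] {s : MSys S N E ι} {γ b : ℝ} (h : NHb s γ b) (p : Pj T S) : NHb (s.pull p) γ b := by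
  intro h0 h1 D
  have h2 := NHEt.copy (h h0 h1 D) (Pool.Agent.Helper81.CPY.pjb p S.tr b h0) (rbot (T.chg (p.pb S.tr) b h0))
    (Eventually.of_forall fun k => by
      refine I_zero_of_le_right ?_
      exact le_rfl)
  refine NHEt.ren h2 id (Eventually.of_forall fun k i ω ω' _ _ _ hw => ?_)
  cases i with
  | none => exact hw
  | some i =>
    refine ⟨hw.1, ?_⟩
    have h3 : Setoid.ker (((s.trn b h0 h1).lf i).Y.cellv 0 k) (p.π k ω) (p.π k ω') := hw.2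
    have h4 : (((s.pull p).trn b h0 h1).lf i).Y.cellv 0 k = fun ω => ((s.trn b h0 h1).lf i).Y.cellv 0 k (p.π k ω) :=
      vv_cellv (Pool.Agent.Helper81.CPY.pjb p S.tr b h0) ((s.trn b h0 h1).lf i).Y 0 k
    show (((s.pull p).trn b h0 h1).lf i).Y.cellv 0 k ω = (((s.pull p).trn b h0 h1).lf i).Y.cellv 0 k ω'
    rw [h4]
    exact h3

/-- THE INPUT OF [NSLJ] ON EXTENSIONS -/
theorem jt_pull {C : MCl N} {v g r e0 : ℕ} {F : Fin N → ℝ} {d : ℝ} {s : MSys S N (lin g) (Fin r)}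
    (hpull : ∀ S g r s, C S g r s → ∀ (T : Sp) (p : Pj T S), C T g r (s.pull p)) (h : JT C v g r e0 F d S s)
    (p : Pj T S) : JT C v g r e0 F d T (s.pull p) where
  cl := hpull _ _ _ _ h.cl T p
  inv := ⟨h.inv.1, fun i => Pool.Agent.Helper8.CPY.ud_pull (h.inv.2 i) p⟩
  dim := h.dim
  pol := Pool.Agent.Helper26.OUT.WDs.pull (fun _ => Nat.cast_nonneg g) h.pol p
  dfb := by
    have h1 : Pool.Agent.Helper8.CPY.AlE (fun S (t : MSys S N (lin g) (Fin r)) => ∀ b : ℝ, 0 ≤ b → b ≤ 1 →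
      H (t.Q.dg b) ≤ N * b - Pool.Agent.Helper15.FST.gam F b) S s := h.dfb
    have h3 : Pool.Agent.Helper8.CPY.AlE (fun S (t : MSys S N (lin g) (Fin r)) => ∀ b : ℝ, 0 ≤ b → b ≤ 1 →
      H (t.Q.dg b) ≤ N * b - Pool.Agent.Helper15.FST.gam F b) T (s.pull p) := by
      refine Pool.Agent.Helper8.CPY.AlE.pull (fun S T t q ht => ?_) h1 p
      intro b h0 h1
      have h2 : H ((t.pull q).Q.dg b) = H (t.Q.dg b) := Pool.Agent.Helper8.CPY.H_dg_vv q t.Q b
      rw [h2]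
      exact ht b h0 h1
    exact h3
  dfc := by
    have h1 : Pool.Agent.Helper8.CPY.AlE (fun S (t : MSys S N (lin g) (Fin r)) =>
      H (t.Q.dg 1) ≤ N - Pool.Agent.Helper15.FST.gam F 1 - d) S s := h.dfc
    have h3 : Pool.Agent.Helper8.CPY.AlE (fun S (t : MSys S N (lin g) (Fin r)) =>
      H (t.Q.dg 1) ≤ N - Pool.Agent.Helper15.FST.gam F 1 - d) T (s.pull p) := by
      refine Pool.Agent.Helper8.CPY.AlE.pull (fun S T t q ht => ?_) h1 p
      have h2 : H ((t.pull q).Q.dg 1) = H (t.Q.dg 1) := Pool.Agent.Helper8.CPY.H_dg_vv q t.Q 1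
      rw [h2]
      exact ht
    exact h3
  nh := fun b h0 h1 => by
    have : Nonempty (Fin r) := h.inv.1
    exact nhb_pull (h.nh b h0 h1) p

end

end Pool.Agent.Helper10.FST
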